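import Pool.Agent.H164R5.FourMain

set_option autoImplicit false

open Finset

namespace Pool.Agent.Results.MP_0c3aa4_co.FourComponents

open Pool.Agent.H126R2.CDC Pool.Agent.H164R5

/-!
Circuit double covers containing a 2-regular subgraph S of a cubic graph G.

Theorem: if G/E(S) has a nowhere-zero 4-flow and G - E(S) has at most four components, then G has a
circuit double cover containing all circuits of S. More generally at most three components of
G - E(S) may fail to carry a flow of their own (the restriction of the 4-flow to the component).

The bound four is best possible: for the two disjoint 5-circuits S of the Petersen graph,
G/E(S) has a nowhere-zero 4-flow and G - E(S) has five components, but no circuit double cover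
contains both circuits.

Proof. The 4-flow (A, B) lifts to a circuit double cover through S unless it splits along a set X of
components (the restriction of (A, B) to X is a flow modulo S) such that an odd number of edges of
A ∩ B leave X (`split_main`, duality). Rotating (A, B) on a set X of components along which it
splits is again a nowhere-zero 4-flow, and the parities over the parts are given by local Hermitian
forms over F_4, so the parities of all unions of own components can be made even simultaneously.
The other splittings are pairs of components out of four; these are treated by a case analysis of
the flows of the four components.
-/

/-- Let G be a cubic graph (loops and parallel edges allowed), S an even edge set (so S is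
2-regular), A and B even edge sets that cover all edges outside S. Let κ be a map from the vertices
to a finite set such that any two vertices with the same image are joined by a path without edges
of S. Suppose that κ has at most four values, or that for all but at most three values j the pair
(A, B) splits along the set of vertices with value j. Then G has a circuit double cover that
contains every circuit contained in S. -/
theorem result {V E : Type} [Fintype V] [DecidableEq V] [Fintype E] [DecidableEq E]
    (G : MGraph V E) (hG : ∀ v, G.deg univ v = 3) (S A B : Finset E)
    (hS : G.IsEven S) (hA : G.IsEven A) (hB : G.IsEven B)
    (hcov : ∀ e, e ∈ S ∨ e ∈ A ∨ e ∈ B)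
    {ι : Type} [Fintype ι] [DecidableEq ι] (κ : V → ι)
    (hκ : ∀ u w, κ u = κ w → Relation.ReflTransGen
      (fun a b => ∃ e, e ∉ S ∧ a ∈ G.ends e ∧ b ∈ G.ends e) u w)
    (h : Fintype.card ι ≤ 4 ∨ ∃ N : Finset ι, N.card ≤ 3 ∧
      ∀ j, j ∉ N → SplitsAlong G S A B (univ.filter fun w => κ w = j)) :
    ∃ F : Multiset (Finset E), G.IsCDC F ∧ ∀ C, G.IsCircuit C → C ⊆ S → C ∈ F :=
  bridges G hG S A B hS hA hB hcov κ hκ h

end Pool.Agent.Results.MP_0c3aa4_co.FourComponents
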